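import Mathlib

/-! Definitions for `MP_c0f4fb_gt.BelowDominating`. -/

open Set Filter Topology

namespace Pool.Agent.H76.BDS

universe u

/-- The sequence of sets `A` converges to the point `x`. -/
def SetConv {X : Type u} [TopologicalSpace X] (A : ℕ → Set X) (x : X) : Prop :=
  ∀ N ∈ 𝓝 x, ∀ᶠ n in atTop, A n ⊆ N

/-- Bisequential spaces: for every point `x` and every filter `F` such that `x` lies in the
closure of every member of `F` there is a sequence of sets which converges to `x` and all of
whose members meet all members of `F`. -/
def Bisequential (X : Type u) [TopologicalSpace X] : Prop :=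
  ∀ (x : X) (F : Filter X), (∀ B ∈ F, x ∈ closure B) →
    ∃ A : ℕ → Set X, SetConv A x ∧ ∀ n, ∀ B ∈ F, (A n ∩ B).Nonempty

/-- The weight of a space: the least cardinality of a base. -/
noncomputable def wt (Y : Type u) [TopologicalSpace Y] : Cardinal.{u} :=
  sInf {c | ∃ B : Set (Set Y), TopologicalSpace.IsTopologicalBasis B ∧ Cardinal.mk B = c}

/-- The dominating number: the least cardinality of a set of functions from the naturals to the
naturals which dominates every function at all but finitely many arguments. -/
noncomputable def domNum : Cardinal.{0} :=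
  sInf {c | ∃ D : Set (ℕ → ℕ),
    (∀ f : ℕ → ℕ, ∃ g ∈ D, ∀ᶠ n in atTop, f n ≤ g n) ∧ Cardinal.mk D = c}

end Pool.Agent.H76.BDS
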