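import Pool.Agent.H76.BDS.Defs

/-!
# Points of first countability in bisequential compacta of weight below the dominating number
-/

open Set Filter Topology

namespace Pool.Agent.H76.BDS

universe u

section Lemmas

lemma sub_biseq {X : Type u} [TopologicalSpace X] (h : Bisequential X) (K : Set X) :
    Bisequential K := by
  intro x F hF
  obtain ⟨A, hA, hB⟩ := h x.1 (F.map Subtype.val) (by
    intro B hB
    rw [Filter.mem_map] at hB
    have h1 := hF _ hB
    rw [closure_subtype] at h1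
    exact closure_mono (by rintro _ ⟨y, hy, rfl⟩; exact hy) h1)
  refine ⟨fun n => Subtype.val ⁻¹' (A n), ?_, ?_⟩
  · intro N hN
    obtain ⟨u, hu, huN⟩ := (mem_nhds_subtype K x N).1 hN
    filter_upwards [hA u hu] with n hn
    exact (preimage_mono hn).trans huN
  · intro n B hB'
    obtain ⟨y, hy1, y', hy', rfl⟩ := hB n (Subtype.val '' B) (Filter.image_mem_map hB')
    exact ⟨y', hy1, hy'⟩

lemma open_seq {Y : Type u} [TopologicalSpace Y] [CompactSpace Y] [T2Space Y]
    (h : Bisequential Y) (x : Y) :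
    ∃ U : ℕ → Set Y, (∀ n, IsOpen (U n) ∧ (U n).Nonempty) ∧ SetConv U x := by
  obtain ⟨A, hA, hB⟩ := h x (𝓝 x ⊓ residual Y) (by
    intro B hB
    obtain ⟨N, hN, R, hR, rfl⟩ := Filter.mem_inf_iff.1 hB
    rw [mem_closure_iff_nhds]
    intro M hM
    have hMN : M ∩ N ∈ 𝓝 x := inter_mem hM hN
    obtain ⟨O, hO1, hO2, hO3⟩ := mem_nhds_iff.1 hMN
    obtain ⟨y, hy1, hy2⟩ := (dense_of_mem_residual hR).inter_open_nonempty O hO2 ⟨x, hO3⟩
    exact ⟨y, (hO1 hy1).1, (hO1 hy1).2, hy2⟩)
  have key : ∀ n, (interior (closure (A n))).Nonempty := by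
    intro n
    by_contra hne
    rw [not_nonempty_iff_eq_empty] at hne
    have hd : Dense ((closure (A n))ᶜ) := interior_eq_empty_iff_dense_compl.1 hne
    have hres : (closure (A n))ᶜ ∈ residual Y :=
      residual_of_dense_open isClosed_closure.isOpen_compl hd
    obtain ⟨y, hy1, hy2⟩ := hB n _ (mem_inf_of_right hres)
    exact hy2 (subset_closure hy1)
  refine ⟨fun n => interior (closure (A n)), fun n => ⟨isOpen_interior, key n⟩, ?_⟩
  intro N hN
  obtain ⟨C, hC1, hC2, hC3⟩ := exists_mem_nhds_isClosed_subset hN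
  filter_upwards [hA C hC1] with n hn
  exact interior_subset.trans ((closure_minimal hn hC2).trans hC3)

lemma step {Y : Type u} [TopologicalSpace Y] [CompactSpace Y] [T2Space Y]
    (h : Bisequential Y) (V : {V : Set Y // IsOpen V ∧ V.Nonempty}) :
    ∃ W : ℕ → {V : Set Y // IsOpen V ∧ V.Nonempty}, ∃ x : Y,
      (∀ n, closure (W n).1 ⊆ V.1) ∧ SetConv (fun n => (W n).1) x := by
  obtain ⟨V, hV, x, hx⟩ := V
  obtain ⟨U, hU, hc⟩ := open_seq h x
  obtain ⟨C, hC1, hC2, hC3⟩ := exists_mem_nhds_isClosed_subset (hV.mem_nhds hx)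
  obtain ⟨m, hm⟩ := eventually_atTop.1 (hc C hC1)
  refine ⟨fun n => ⟨U (n + m), hU _⟩, x, fun n => ?_, ?_⟩
  · exact (closure_minimal (hm _ (by omega)) hC2).trans hC3
  · intro N hN
    exact (tendsto_add_atTop_nat m).eventually (hc N hN)

/-- The initial segments of a branch, the newest entry first. -/
def br (f : ℕ → ℕ) : ℕ → List ℕ
  | 0 => []
  | k + 1 => f k :: br f k

/-- The finite levels of the tree of all sequences with entries below `N`. -/
def lev (N : List ℕ → ℕ) : ℕ → Finset (List ℕ)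
  | 0 => {[]}
  | k + 1 => (lev N k).biUnion (fun s => (Finset.range (N s)).image (fun n => n :: s))

lemma br_mem {N : List ℕ → ℕ} {f : ℕ → ℕ} (h : ∀ k, f k < N (br f k)) :
    ∀ k, br f k ∈ lev N k := by
  intro k
  induction k with
  | zero => simp [br, lev]
  | succ k ih =>
    simp only [br, lev, Finset.mem_biUnion, Finset.mem_image, Finset.mem_range]
    exact ⟨br f k, ih, f k, h k, rfl⟩

lemma aleph0_le_domNum : Cardinal.aleph0 ≤ domNum := by
  refine le_csInf ⟨_, ⟨univ, fun f => ⟨f, mem_univ _, Eventually.of_forall fun n => le_rfl⟩, rfl⟩⟩ ?_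
  rintro c ⟨D, hD, rfl⟩
  by_contra hlt
  rw [not_le, Cardinal.lt_aleph0_iff_set_finite] at hlt
  obtain ⟨g, hg, hge⟩ := hD (fun n => hlt.toFinset.sup (fun g => g n) + 1)
  obtain ⟨n, hn⟩ := hge.exists
  have h1 : g n ≤ hlt.toFinset.sup (fun g => g n) :=
    Finset.le_sup (f := fun g : ℕ → ℕ => g n) (hlt.mem_toFinset.2 hg)
  omega

lemma not_dom {ι : Type u} (F : ι → ℕ → ℕ)
    (h : Cardinal.mk ι < Cardinal.lift.{u} domNum) :
    ∃ f : ℕ → ℕ, ∀ i, ∃ n, F i n < f n := by
  by_contra hcon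
  push_neg at hcon
  have h1 : domNum ≤ Cardinal.mk (range F) := by
    refine csInf_le' ⟨range F, fun f => ?_, rfl⟩
    obtain ⟨i, hi⟩ := hcon f
    exact ⟨F i, mem_range_self i, Eventually.of_forall hi⟩
  have h2 : Cardinal.lift.{u} (Cardinal.mk (range F)) ≤ Cardinal.lift.{0} (Cardinal.mk ι) :=
    Cardinal.mk_range_le_lift
  rw [Cardinal.lift_uzero] at h2
  have h3 : Cardinal.lift.{u} domNum ≤ Cardinal.mk ι :=
    (Cardinal.lift_le.2 h1).trans h2
  exact absurd h (not_lt.2 h3)

lemma exists_point {Y : Type u} [TopologicalSpace Y] [CompactSpace Y] [T2Space Y] [Nonempty Y]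
    (h : Bisequential Y) {B : Set (Set Y)} (hB : TopologicalSpace.IsTopologicalBasis B)
    (hd : Cardinal.mk B < Cardinal.lift.{u} domNum) :
    ∃ p : Y, ∃ V : ℕ → Set Y, (∀ n, IsOpen (V n)) ∧ (⋂ n, V n) = {p} := by
  classical
  choose W x hW hx using step h
  let T : List ℕ → {V : Set Y // IsOpen V ∧ V.Nonempty} := fun s =>
    List.rec ⟨univ, isOpen_univ, univ_nonempty⟩ (fun n _ V => W V n) s
  have hT : ∀ n s, T (n :: s) = W (T s) n := fun n s => rfl
  let P := {q : B × B // Disjoint (closure q.1.1) (closure q.2.1)}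
  have hN : ∀ (q : P) (s : List ℕ), ∃ N, ∀ n, N ≤ n →
      Disjoint (T (n :: s)).1 q.1.1.1 ∨ Disjoint (T (n :: s)).1 q.1.2.1 := by
    intro q s
    by_cases hxq : x (T s) ∈ closure q.1.1.1
    · have hxq' : x (T s) ∉ closure q.1.2.1 := fun h' => disjoint_left.1 q.2 hxq h'
      obtain ⟨m, hm⟩ := eventually_atTop.1
        (hx (T s) _ (isClosed_closure.isOpen_compl.mem_nhds hxq'))
      refine ⟨m, fun n hn => Or.inr ?_⟩
      rw [disjoint_left]
      intro y hy hy'
      exact hm n hn hy (subset_closure hy')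
    · obtain ⟨m, hm⟩ := eventually_atTop.1
        (hx (T s) _ (isClosed_closure.isOpen_compl.mem_nhds hxq))
      refine ⟨m, fun n hn => Or.inl ?_⟩
      rw [disjoint_left]
      intro y hy hy'
      exact hm n hn hy (subset_closure hy')
  choose N hN using hN
  have hP : Cardinal.mk P < Cardinal.lift.{u} domNum := by
    refine lt_of_le_of_lt (Cardinal.mk_subtype_le _) ?_
    rw [Cardinal.mk_prod, Cardinal.lift_id]
    exact Cardinal.mul_lt_of_lt (Cardinal.aleph0_le_lift.2 aleph0_le_domNum) hd hd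
  obtain ⟨f, hf⟩ := not_dom (fun (q : P) (k : ℕ) => (lev (N q) k).sup (N q)) hP
  have hdec : ∀ q : P, ∃ k, Disjoint (T (br f (k + 1))).1 q.1.1.1 ∨
      Disjoint (T (br f (k + 1))).1 q.1.2.1 := by
    intro q
    obtain ⟨n, hn⟩ := hf q
    have : ∃ k, N q (br f k) ≤ f k := by
      by_contra hcon
      push_neg at hcon
      have h1 := br_mem hcon n
      have h2 : N q (br f n) ≤ (lev (N q) n).sup (N q) := Finset.le_sup h1
      have h3 := hcon n
      omega
    obtain ⟨k, hk⟩ := this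
    exact ⟨k, hN q (br f k) (f k) hk⟩
  let V : ℕ → Set Y := fun k => (T (br f k)).1
  have hVo : ∀ k, IsOpen (V k) := fun k => (T (br f k)).2.1
  have hVn : ∀ k, (V k).Nonempty := fun k => (T (br f k)).2.2
  have hVc : ∀ k, closure (V (k + 1)) ⊆ V k := fun k => hW (T (br f k)) (f k)
  have hne : (⋂ k, closure (V k)).Nonempty :=
    IsCompact.nonempty_iInter_of_sequence_nonempty_isCompact_isClosed (fun k => closure (V k))
      (fun k => (hVc k).trans subset_closure) (fun k => (hVn k).closure)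
      isClosed_closure.isCompact (fun k => isClosed_closure)
  obtain ⟨p, hp⟩ := hne
  rw [mem_iInter] at hp
  refine ⟨p, V, hVo, ?_⟩
  ext p'
  rw [mem_iInter, mem_singleton_iff]
  constructor
  · intro hp'
    by_contra hpp
    obtain ⟨u, hu1, hu2, v, hv1, hv2, huv⟩ := exists_open_nhds_disjoint_closure hpp
    obtain ⟨b, hbB, hpb, hbu⟩ := hB.exists_subset_of_mem_open hu1 hu2
    obtain ⟨c, hcB, hpc, hcv⟩ := hB.exists_subset_of_mem_open hv1 hv2
    obtain ⟨k, hk⟩ := hdec ⟨(⟨b, hbB⟩, ⟨c, hcB⟩),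
      huv.mono (closure_mono hbu) (closure_mono hcv)⟩
    rcases hk with hk | hk
    · exact disjoint_left.1 hk (hp' (k + 1)) hpb
    · obtain ⟨y, hy1, hy2⟩ := mem_closure_iff.1 (hp (k + 1)) c (hB.isOpen hcB) hpc
      exact disjoint_left.1 hk hy2 hy1
  · rintro rfl
    intro k
    exact hVc k (hp (k + 1))

lemma ctbl_gen {X : Type u} [TopologicalSpace X] [CompactSpace X] [T2Space X] {p : X}
    (U : ℕ → Set X) (hU : ∀ n, IsOpen (U n)) (hp : (⋂ n, U n) = {p}) :
    (𝓝 p).IsCountablyGenerated := by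
  have hpU : ∀ n, p ∈ U n := fun n => mem_iInter.1 (hp.symm ▸ mem_singleton p) n
  have : ∀ n, ∃ C ∈ 𝓝 p, IsClosed C ∧ C ⊆ U n := fun n =>
    exists_mem_nhds_isClosed_subset ((hU n).mem_nhds (hpU n))
  choose C hC1 hC2 hC3 using this
  let D : ℕ → Set X := fun n => ⋂ i ∈ Finset.range (n + 1), C i
  have hDm : ∀ n, D n ∈ 𝓝 p := fun n => (Filter.biInter_finset_mem _).2 fun i _ => hC1 i
  have hDc : ∀ n, IsClosed (D n) := fun n => isClosed_biInter fun i _ => hC2 i
  have hDa : Antitone D := by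
    intro a b hab y hy
    simp only [D, mem_iInter, Finset.mem_range] at hy ⊢
    exact fun i hi => hy i (by omega)
  have hDi : (⋂ n, D n) ⊆ {p} := by
    rw [← hp]
    intro y hy
    rw [mem_iInter] at hy ⊢
    intro n
    have h1 := hy n
    simp only [D, mem_iInter, Finset.mem_range] at h1
    exact hC3 n (h1 n (by omega))
  have hbas : (𝓝 p).HasBasis (fun _ : ℕ => True) D := by
    refine ⟨fun t => ⟨fun ht => ?_, fun ⟨n, _, hn⟩ => mem_of_superset (hDm n) hn⟩⟩
    obtain ⟨n, hn⟩ := exists_subset_nhds_of_compactSpace (hDa.directed_ge) hDc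
      (U := t) (fun y hy => by rw [mem_singleton_iff.1 (hDi hy)]; exact ht)
    exact ⟨n, trivial, hn⟩
  exact hbas.isCountablyGenerated

end Lemmas

/-- In a bisequential compactum every nonempty closed `G_delta` subset whose weight is below the
dominating number contains a point at which the whole space is first countable. -/
theorem main :
    ∀ (X : Type u) [TopologicalSpace X] [CompactSpace X] [T2Space X], Bisequential X →
      ∀ K : Set X, K.Nonempty → IsClosed K → IsGδ K →
        wt K < Cardinal.lift.{u} domNum →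
        ∃ x ∈ K, (𝓝 x).IsCountablyGenerated := by
  intro X _ _ _ h K hne hcl hGd hw
  haveI : CompactSpace K := isCompact_iff_compactSpace.1 hcl.isCompact
  haveI : Nonempty K := hne.to_subtype
  have hset : {c | ∃ B : Set (Set K), TopologicalSpace.IsTopologicalBasis B ∧
      Cardinal.mk B = c}.Nonempty :=
    ⟨_, _, TopologicalSpace.isTopologicalBasis_opens, rfl⟩
  obtain ⟨B, hB, hBc⟩ := csInf_mem hset
  have hd : Cardinal.mk B < Cardinal.lift.{u} domNum := by
    rw [hBc]; exact hw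
  obtain ⟨p, V, hVo, hVi⟩ := exists_point (sub_biseq h K) hB hd
  choose O hO1 hO2 using fun n => isOpen_induced_iff.1 (hVo n)
  obtain ⟨G, hG1, hG2⟩ := isGδ_iff_eq_iInter_nat.1 hGd
  refine ⟨p.1, p.2, ?_⟩
  refine ctbl_gen (fun n => O n ∩ G n) (fun n => (hO1 n).inter (hG1 n)) ?_
  ext y
  rw [mem_iInter, mem_singleton_iff]
  constructor
  · intro hy
    have hyK : y ∈ K := by rw [hG2, mem_iInter]; exact fun n => (hy n).2
    have h1 : (⟨y, hyK⟩ : K) ∈ ⋂ n, V n := by
      rw [mem_iInter]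
      intro n
      rw [← hO2 n]
      exact (hy n).1
    rw [hVi, mem_singleton_iff] at h1
    exact congrArg Subtype.val h1
  · rintro rfl
    intro n
    have h1 : p ∈ ⋂ n, V n := by rw [hVi]; exact mem_singleton p
    have h2 := mem_iInter.1 h1 n
    rw [← hO2 n] at h2
    refine ⟨h2, ?_⟩
    have h3 : p.1 ∈ ⋂ n, G n := hG2 ▸ p.2
    exact mem_iInter.1 h3 n

end Pool.Agent.H76.BDS
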